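import Mathlib

/-!
# The rules `x ^ n → x ^ (n + m)`

Basic definitions and the gap lemma: a word of `L(w)` cannot be almost entirely covered by a
factor whose runs are all uniformly shorter than `(n + m)`-th powers.
-/

set_option autoImplicit false

namespace Pool.Agent.H344R3.FB

variable {α : Type*}

/-- The word `x` repeated `n` times. -/
def pw (x : List α) (n : ℕ) : List α := (List.replicate n x).flatten

/-- One derivation step: a factor `x ^ n` is replaced by `x ^ (n + m)`. -/
def Step (n m : ℕ) (v v' : List α) : Prop :=
  ∃ p x q : List α, v = p ++ pw x n ++ q ∧ v' = p ++ pw x (n + m) ++ q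

/-- The language of all words that can be derived from `w`. -/
def Lang (n m : ℕ) (w : List α) : Language α :=
  {v | Relation.ReflTransGen (Step n m) w v}

@[simp] theorem pw_zero (x : List α) : pw x 0 = [] := by simp [pw]

theorem pw_succ (x : List α) (n : ℕ) : pw x (n + 1) = x ++ pw x n := by
  simp [pw, List.replicate_succ]

theorem pw_add (x : List α) (i j : ℕ) : pw x (i + j) = pw x i ++ pw x j := by
  induction i with
  | zero => simp
  | succ i ih =>
    rw [show i + 1 + j = (i + j) + 1 by omega, pw_succ, pw_succ, ih, List.append_assoc]

theorem pw_length (x : List α) (n : ℕ) : (pw x n).length = n * x.length := by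
  induction n with
  | zero => simp
  | succ n ih => rw [pw_succ, List.length_append, ih]; ring

@[simp] theorem pw_nil (n : ℕ) : pw ([] : List α) n = [] := by
  induction n with
  | zero => simp
  | succ n ih => rw [pw_succ, ih]; rfl

theorem pw_one (x : List α) : pw x 1 = x := by
  rw [show (1 : ℕ) = 0 + 1 from rfl, pw_succ]; simp

/-- `p` is a period of `f`. -/
def Per (p : ℕ) (f : List α) : Prop := ∀ i, i + p < f.length → f[i]? = f[i + p]?

theorem Per.fac {p : ℕ} {a f b : List α} (h : Per p (a ++ f ++ b)) : Per p f := by
  intro i hi
  have h1 := h (a.length + i) (by simp only [List.length_append]; omega)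
  have e1 : (a ++ f ++ b)[a.length + i]? = f[i]? := by
    rw [List.append_assoc, List.getElem?_append_right (by omega),
      List.getElem?_append_left (by omega)]
    congr 1
    omega
  have e2 : (a ++ f ++ b)[a.length + i + p]? = f[i + p]? := by
    rw [List.append_assoc, List.getElem?_append_right (by omega),
      List.getElem?_append_left (by omega)]
    congr 1
    omega
  rw [e1, e2] at h1
  exact h1

theorem per_pw (x : List α) (n : ℕ) : Per x.length (pw x n) := by
  induction n with
  | zero => intro i hi; simp at hi
  | succ n ih =>
    intro i hi
    cases n with
    | zero =>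
      rw [pw_length] at hi
      omega
    | succ n =>
      rw [pw_length] at hi
      by_cases h : i < x.length
      · rw [pw_succ, List.getElem?_append_left h, List.getElem?_append_right (by omega), pw_succ,
          List.getElem?_append_left (by omega)]
        congr 1
        omega
      · rw [pw_succ, List.getElem?_append_right (by omega),
          List.getElem?_append_right (by omega)]
        have h1 := ih (i - x.length) (by rw [pw_length]; nlinarith [Nat.sub_add_cancel (not_lt.1 h)])
        rw [h1]
        congr 1
        omega

/-- All runs in `t` are uniformly shorter than `N`-th powers. -/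
def Good (c N : ℕ) (t : List α) : Prop :=
  ∀ a f b : List α, t = a ++ f ++ b → ∀ p, 0 < p → Per p f → c * f.length + p ≤ c * N * p

theorem Good.fac {c N : ℕ} {a f b : List α} (h : Good c N (a ++ f ++ b)) : Good c N f := by
  intro a' f' b' he p hp hper
  exact h (a ++ a') f' (b' ++ b) (by rw [he]; simp) p hp hper

end Pool.Agent.H344R3.FB
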