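import Pool.Agent.H344R3.FB.Defs

set_option autoImplicit false

namespace Pool.Agent.H344R3.FB

variable {α : Type*}

theorem step_back {n m c : ℕ} (hm : 0 < m) {y t z P x Q : List α} (hx : x ≠ [])
    (he : y ++ (t ++ z) = P ++ (pw x (n + m) ++ Q)) (hg : Good c (n + m) t)
    (hlen : (n + m) * c * (y.length + z.length) < t.length) :
    ∃ y' t' z' : List α, P ++ (pw x n ++ Q) = y' ++ (t' ++ z') ∧ Good c (n + m) t' ∧
      y'.length + z'.length < y.length + z.length ∧
      t.length ≤ t'.length + (n + m) * c * (y.length + z.length) := by
  have hp : 0 < x.length := List.length_pos_of_ne_nil hx
  have hXl : (pw x (n + m)).length = (n + m) * x.length := pw_length _ _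
  have hml : (pw x m).length = m * x.length := pw_length _ _
  have hml' : 0 < (pw x m).length := by rw [hml]; positivity
  have hper := per_pw x (n + m)
  -- the case that the power starts in `t z`
  have caseA : ∀ P' : List α, P = y ++ P' → t ++ z = P' ++ (pw x (n + m) ++ Q) →
      ∃ y' t' z' : List α, P ++ (pw x n ++ Q) = y' ++ (t' ++ z') ∧ Good c (n + m) t' ∧
      y'.length + z'.length < y.length + z.length ∧
      t.length ≤ t'.length + (n + m) * c * (y.length + z.length) := by
    intro P' hP h1
    rcases List.append_eq_append_iff.1 h1 with ⟨t'', ha, hb⟩ | ⟨t2, ha, hb⟩
    · refine ⟨y, t, t'' ++ (pw x n ++ Q), ?_, hg, ?_, by omega⟩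
      · rw [hP, ha]; simp
      · rw [hb]
        simp only [List.length_append, pw_add]
        omega
    · rcases List.append_eq_append_iff.1 hb with ⟨r, hc, hd⟩ | ⟨X2, hc, hd⟩
      · exfalso
        have h2 := hg P' (pw x (n + m)) r (by rw [ha, hc]; simp) x.length hp hper
        rw [hXl] at h2
        nlinarith
      · have h2 := hg P' t2 [] (by rw [ha]; simp) x.length hp (by
          have : Per x.length ([] ++ t2 ++ X2) := by
            simpa [← hc] using hper
          exact this.fac)
        have h3 : t2.length + X2.length = (n + m) * x.length := by
          rw [← hXl, hc, List.length_append]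
        have h4 : x.length ≤ c * X2.length := by nlinarith
        have h5 : X2.length ≤ z.length := by rw [hd]; simp
        have h6 : 0 < X2.length := by
          rcases Nat.eq_zero_or_pos X2.length with h | h
          · rw [h] at h4; omega
          · exact h
        rw [pw_add] at hc
        rcases List.append_eq_append_iff.1 hc with ⟨t3, hf, hg'⟩ | ⟨X3, hf, hg'⟩
        · -- t2 = pw x n ++ t3
          have ht : t = [] ++ (P' ++ pw x n) ++ t3 := by rw [ha, hf]; simp
          refine ⟨y, P' ++ pw x n, Q, by rw [hP]; simp, ?_, ?_, ?_⟩
          · rw [ht] at hg
            exact hg.fac
          · rw [hd, List.length_append]; omega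
          · have h7 : t3.length ≤ (n + m) * x.length := by
              have := congrArg List.length hf
              rw [List.length_append] at this
              omega
            have h8 : (n + m) * x.length ≤ (n + m) * c * (y.length + z.length) := by
              rw [mul_assoc]
              apply Nat.mul_le_mul_left
              calc x.length ≤ c * X2.length := h4
                _ ≤ c * (y.length + z.length) := by apply Nat.mul_le_mul_left; omega
            have h9 := congrArg List.length ht
            simp only [List.length_append, List.length_nil] at h9 ⊢
            omega
        · -- pw x n = t2 ++ X3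
          refine ⟨y, t, X3 ++ Q, by rw [hP, ha, hf]; simp, hg, ?_, by omega⟩
          rw [hd, hg']
          simp only [List.length_append]
          omega
  rcases List.append_eq_append_iff.1 he with ⟨P', ha, hb⟩ | ⟨y2, ha, hb⟩
  · exact caseA P' ha hb
  · by_cases hy2 : y2 = []
    · subst hy2
      refine caseA [] (by simpa using ha.symm) (by simpa using hb.symm)
    · have hy2l : 0 < y2.length := List.length_pos_of_ne_nil hy2
      rcases List.append_eq_append_iff.1 hb with ⟨r, hc, hd⟩ | ⟨X1, hc, hd⟩
      · -- y2 = X ++ r
        refine ⟨P ++ (pw x n ++ r), t, z, by rw [hd]; simp, hg, ?_, by omega⟩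
        rw [ha, hc]
        simp only [List.length_append, pw_add]
        omega
      · rcases List.append_eq_append_iff.1 hd with ⟨r, hc', hd'⟩ | ⟨t2, hc', hd'⟩
        · -- X1 = t ++ r
          exfalso
          have hpt : Per x.length t := by
            have : Per x.length (y2 ++ t ++ r) := by
              rw [hc, hc'] at hper
              simpa using hper
            exact this.fac
          have h2 := hg [] t [] (by simp) x.length hp hpt
          have h3 : y2.length + t.length + r.length = (n + m) * x.length := by
            rw [← hXl, hc, hc']; simp only [List.length_append]; omega
          have h4 : x.length ≤ c * (y2.length + r.length) := by nlinarith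
          have h5 : y2.length + r.length ≤ y.length + z.length := by
            rw [ha, hd']; simp only [List.length_append]; omega
          have h8 : (n + m) * x.length ≤ (n + m) * c * (y.length + z.length) := by
            rw [mul_assoc]
            apply Nat.mul_le_mul_left
            calc x.length ≤ c * (y2.length + r.length) := h4
              _ ≤ c * (y.length + z.length) := Nat.mul_le_mul_left _ h5
          omega
        · -- t = X1 ++ t2
          have hpt : Per x.length X1 := by
            have : Per x.length (y2 ++ X1 ++ []) := by
              rw [hc] at hper
              simpa using hper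
            exact this.fac
          have h2 := hg [] X1 t2 (by rw [hc']; simp) x.length hp hpt
          have h3 : y2.length + X1.length = (n + m) * x.length := by
            rw [← hXl, hc]; simp only [List.length_append]
          have h4 : x.length ≤ c * y2.length := by nlinarith
          have h5 : y2.length ≤ y.length := by rw [ha]; simp
          have hc2 : y2 ++ X1 = pw x m ++ pw x n := by
            rw [← hc, Nat.add_comm, pw_add]
          rcases List.append_eq_append_iff.1 hc2 with ⟨a', hf, hg'⟩ | ⟨c', hf, hg'⟩
          · -- pw x m = y2 ++ a', X1 = a' ++ pw x n
            have ht : t = a' ++ (pw x n ++ t2) ++ [] := by rw [hc', hg']; simp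
            refine ⟨P, pw x n ++ t2, z, by rw [hd']; simp, ?_, ?_, ?_⟩
            · rw [ht] at hg
              exact hg.fac
            · rw [ha, List.length_append]; omega
            · have h7 : a'.length ≤ (n + m) * x.length := by
                have := congrArg List.length hg'
                rw [List.length_append] at this
                omega
              have h8 : (n + m) * x.length ≤ (n + m) * c * (y.length + z.length) := by
                rw [mul_assoc]
                apply Nat.mul_le_mul_left
                calc x.length ≤ c * y2.length := h4
                  _ ≤ c * (y.length + z.length) := by apply Nat.mul_le_mul_left; omega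
              have h9 := congrArg List.length ht
              simp only [List.length_append, List.length_nil] at h9 ⊢
              omega
          · -- y2 = pw x m ++ c'
            refine ⟨P ++ c', t, z, ?_, hg, ?_, by omega⟩
            · rw [hd', hc', hg']; simp
            · rw [ha, hf]
              simp only [List.length_append]
              omega

/-- A word of `L(w)` with a long good factor has to be long outside of this factor. -/
theorem gap {n m c : ℕ} (hm : 0 < m) {w v : List α}
    (hv : Relation.ReflTransGen (Step n m) w v) :
    ∀ y t z : List α, v = y ++ (t ++ z) → Good c (n + m) t →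
      (n + m) * c * ((y.length + z.length) * (y.length + z.length + 1)) < t.length →
      t.length ≤ w.length +
        (n + m) * c * ((y.length + z.length) * (y.length + z.length + 1)) := by
  induction hv with
  | refl =>
    intro y t z he _ _
    rw [he]
    simp only [List.length_append]
    omega
  | tail _ hstep ih =>
    intro y t z he hg hlen
    obtain ⟨P, x, Q, h1, h2⟩ := hstep
    by_cases hx : x = []
    · subst hx
      refine ih y t z ?_ hg hlen
      rw [h1, ← he, h2]
      simp
    · set μ := y.length + z.length with hμ
      have hlen' : (n + m) * c * μ < t.length := by
        refine lt_of_le_of_lt ?_ hlen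
        apply Nat.mul_le_mul_left
        nlinarith
      obtain ⟨y', t', z', e1, g1, l1, l2⟩ := step_back (n := n) (m := m) (c := c) hm hx
        (y := y) (t := t) (z := z) (P := P) (Q := Q) (by rw [← he, h2]; simp) hg hlen'
      rw [← hμ] at l1 l2
      set μ' := y'.length + z'.length with hμ'
      have key : (n + m) * c * (μ' * (μ' + 1)) + (n + m) * c * μ ≤
          (n + m) * c * (μ * (μ + 1)) := by
        rw [← Nat.mul_add]
        apply Nat.mul_le_mul_left
        obtain ⟨k, hk⟩ : ∃ k, μ = μ' + 1 + k := ⟨μ - μ' - 1, by omega⟩
        rw [hk]
        nlinarith
      have h3 := ih y' t' z' (by rw [h1, ← e1]; simp) g1 (by rw [← hμ']; omega)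
      rw [← hμ'] at h3
      omega

end Pool.Agent.H344R3.FB
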