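import Pool.Agent.H344R3.FB.Gap

set_option autoImplicit false

namespace Pool.Agent.H344R3.FB

variable {α : Type*}

theorem short_accept {σ : Type} [Fintype σ] (M : DFA α σ) (s : σ) :
    ∀ (k : ℕ) (z : List α), z.length = k → M.evalFrom s z ∈ M.accept →
      ∃ z' : List α, z'.length ≤ Fintype.card σ ∧ M.evalFrom s z' ∈ M.accept := by
  intro k
  induction k using Nat.strong_induction_on with
  | _ k ih =>
    intro z hz hacc
    by_cases h : z.length ≤ Fintype.card σ
    · exact ⟨z, h, hacc⟩
    · obtain ⟨q, a, b, c, h1, -, h3, h4, h5, h6⟩ :=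
        M.evalFrom_split (x := z) (s := s) (by omega) rfl
      have hb : 0 < b.length := List.length_pos_of_ne_nil h3
      refine ih (a ++ c).length ?_ (a ++ c) rfl ?_
      · rw [← hz, h1]
        simp only [List.length_append]
        omega
      · rw [DFA.evalFrom_of_append, h4, h6]
        exact hacc

theorem not_regular {n m c : ℕ} (hm : 0 < m) {w y0 : List α}
    (h : ∀ K : ℕ, ∃ t z : List α, K ≤ t.length ∧ Good c (n + m) t ∧
      y0 ++ (t ++ z) ∈ Lang n m w) : ¬ (Lang n m w).IsRegular := by
  rintro ⟨σ, _, M, hM⟩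
  set C := y0.length + Fintype.card σ with hC
  obtain ⟨t, z, h1, h2, h3⟩ := h (w.length + 1 + (n + m) * c * (C * (C + 1)))
  rw [← hM, DFA.mem_accepts, DFA.eval, ← List.append_assoc, DFA.evalFrom_of_append] at h3
  obtain ⟨z', hz', h4⟩ := short_accept M _ _ z rfl h3
  rw [← DFA.evalFrom_of_append] at h4
  have h5 : y0 ++ (t ++ z') ∈ Lang n m w := by
    rw [← hM, DFA.mem_accepts, DFA.eval, ← List.append_assoc]
    exact h4
  set μ := y0.length + z'.length with hμ
  have hle : (n + m) * c * (μ * (μ + 1)) ≤ (n + m) * c * (C * (C + 1)) := by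
    apply Nat.mul_le_mul_left
    have : μ ≤ C := by omega
    exact Nat.mul_le_mul this (by omega)
  have h6 := gap hm h5 y0 t z' rfl h2 (by rw [← hμ]; omega)
  rw [← hμ] at h6
  omega

/-- monotonicity in a context -/
theorem step_context {n m : ℕ} {v v' : List α} (a b : List α) (h : Step n m v v') :
    Step n m (a ++ (v ++ b)) (a ++ (v' ++ b)) := by
  obtain ⟨p, x, q, h1, h2⟩ := h
  exact ⟨a ++ p, x, q ++ b, by rw [h1]; simp, by rw [h2]; simp⟩

theorem lang_context {n m : ℕ} {w v : List α} (a b : List α) (h : v ∈ Lang n m w) :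
    a ++ (v ++ b) ∈ Lang n m (a ++ (w ++ b)) := by
  have h' : Relation.ReflTransGen (Step n m) w v := h
  show Relation.ReflTransGen (Step n m) _ _
  induction h' with
  | refl => exact Relation.ReflTransGen.refl
  | tail _ h2 ih => exact (ih (by assumption)).tail (step_context a b h2)

theorem lang_trans {n m : ℕ} {u v w : List α} (h1 : v ∈ Lang n m w) (h2 : u ∈ Lang n m v) :
    u ∈ Lang n m w := Relation.ReflTransGen.trans h1 h2

end Pool.Agent.H344R3.FB
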