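import Mathlib

/-! The Thue-Morse word is overlap-free (taken over from `Pool.Agent.Helper131.Tern`). -/

set_option autoImplicit false

namespace Pool.Agent.H344R3.FB.TM

def tmAux : ℕ → ℕ → Bool
  | 0, _ => false
  | k + 1, n => xor (n % 2 == 1) (tmAux k (n / 2))

def tm (n : ℕ) : Bool := tmAux n n

theorem tmAux_zero (k : ℕ) : tmAux k 0 = false := by
  induction k with
  | zero => rfl
  | succ k ih => simp [tmAux, ih]

theorem tmAux_stable : ∀ n k k' : ℕ, n ≤ k → n ≤ k' → tmAux k n = tmAux k' n := by
  intro n
  induction n using Nat.strong_induction_on with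
  | _ n ih =>
    intro k k' h h'
    rcases Nat.eq_zero_or_pos n with h0 | h0
    · subst h0; rw [tmAux_zero, tmAux_zero]
    · obtain ⟨k1, rfl⟩ : ∃ k1, k = k1 + 1 := ⟨k - 1, by omega⟩
      obtain ⟨k1', rfl⟩ : ∃ k1', k' = k1' + 1 := ⟨k' - 1, by omega⟩
      simp only [tmAux]
      rw [ih (n / 2) (by omega) k1 k1' (by omega) (by omega)]

theorem tm_even (n : ℕ) : tm (2 * n) = tm n := by
  rcases Nat.eq_zero_or_pos n with h0 | h0
  · subst h0; rfl
  · unfold tm
    obtain ⟨k, hk⟩ : ∃ k, 2 * n = k + 1 := ⟨2 * n - 1, by omega⟩
    rw [show tmAux (2 * n) (2 * n) = tmAux (k + 1) (2 * n) from by rw [hk]]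
    simp only [tmAux]
    have h1 : 2 * n % 2 = 0 := by omega
    have h2 : 2 * n / 2 = n := by omega
    rw [h1, h2, tmAux_stable n k n (by omega) le_rfl]
    simp

theorem tm_odd (n : ℕ) : tm (2 * n + 1) = !tm n := by
  unfold tm
  simp only [tmAux]
  have h1 : (2 * n + 1) % 2 = 1 := by omega
  have h2 : (2 * n + 1) / 2 = n := by omega
  rw [h1, h2, tmAux_stable n (2 * n) n (by omega) le_rfl]
  simp

/-- equal neighbours start at odd positions -/
theorem tm_pair_odd {j : ℕ} (h : tm j = tm (j + 1)) : j % 2 = 1 := by
  by_contra hj
  obtain ⟨m, rfl⟩ : ∃ m, j = 2 * m := ⟨j / 2, by omega⟩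
  rw [tm_even, tm_odd] at h
  simp at h

theorem tm_overlap_free : ∀ p : ℕ, 0 < p → ∀ i, ¬ (∀ k ≤ p, tm (i + k) = tm (i + p + k)) := by
  intro p
  induction p using Nat.strong_induction_on with
  | _ p ih =>
    intro hp i h
    rcases Nat.even_or_odd' p with ⟨q, hq | hq⟩
    · -- even period
      refine ih q (by omega) (by omega) (i / 2) ?_
      intro k hk
      have h1 := h (2 * k) (by omega)
      rcases Nat.even_or_odd' i with ⟨m, hm | hm⟩
      · have e1 : i + 2 * k = 2 * (i / 2 + k) := by omega
        have e2 : i + p + 2 * k = 2 * (i / 2 + q + k) := by omega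
        rw [e1, e2, tm_even, tm_even] at h1
        exact h1
      · have e1 : i + 2 * k = 2 * (i / 2 + k) + 1 := by omega
        have e2 : i + p + 2 * k = 2 * (i / 2 + q + k) + 1 := by omega
        rw [e1, e2, tm_odd, tm_odd] at h1
        simpa using h1
    · -- odd period
      by_cases hex : ∃ j, i ≤ j ∧ j < i + p ∧ tm j = tm (j + 1)
      · obtain ⟨j, hj1, hj2, hj3⟩ := hex
        have o1 := tm_pair_odd hj3
        have a1 := h (j - i) (by omega)
        have a2 := h (j + 1 - i) (by omega)
        have e1 : i + (j - i) = j := by omega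
        have e2 : i + p + (j - i) = j + p := by omega
        have e3 : i + (j + 1 - i) = j + 1 := by omega
        have e4 : i + p + (j + 1 - i) = j + p + 1 := by omega
        rw [e1, e2] at a1
        rw [e3, e4] at a2
        have o2 := tm_pair_odd (j := j + p) (by rw [← a1, ← a2]; exact hj3)
        omega
      · push Not at hex
        have alt : ∀ k ≤ p, tm (i + k) = xor (tm i) (k % 2 == 1) := by
          intro k
          induction k with
          | zero => intro _; simp
          | succ k ihk =>
            intro hk
            have h1 := ihk (by omega)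
            have h2 := hex (i + k) (by omega) (by omega)
            have h3 : tm (i + (k + 1)) = !tm (i + k) := by
              have e : i + (k + 1) = i + k + 1 := by omega
              rw [e]
              cases hA : tm (i + k) <;> cases hB : tm (i + k + 1) <;> simp_all
            rw [h3, h1]
            rcases Nat.mod_two_eq_zero_or_one k with h4 | h4
            · have h5 : (k + 1) % 2 = 1 := by omega
              rw [h4, h5]; cases tm i <;> rfl
            · have h5 : (k + 1) % 2 = 0 := by omega
              rw [h4, h5]; cases tm i <;> rfl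
        have h1 := alt p le_rfl
        have h2 := h 0 (by omega)
        have h3 : p % 2 = 1 := by omega
        simp only [add_zero] at h2
        rw [← h2, h3] at h1
        clear h2 alt hex h ih
        revert h1
        cases tm i <;> decide

end Pool.Agent.H344R3.FB.TM
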