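import Pool.Agent.H344R3.FB.NonReg
import Pool.Agent.H344R3.FB.TM

set_option autoImplicit false

namespace Pool.Agent.H344R3.FB

variable {α : Type}

open TM (tm tm_overlap_free)

/-- In `x → x ^ (1 + m)` a letter that has occurred before can be removed after completion. -/
theorem extend_one (m : ℕ) (hm : 0 < m) (u : List α) (d : α) (hd : d ∈ u) :
    ∃ z : List α, (u ++ [d]) ++ z ∈ Lang 1 m u := by
  obtain ⟨p, r, hu⟩ := List.append_of_mem hd
  refine ⟨r ++ pw (d :: r) (m - 1), ?_⟩
  refine Relation.ReflTransGen.single ⟨p, d :: r, [], ?_, ?_⟩
  · rw [pw_one, hu]; simp
  · rw [show 1 + m = (m - 1) + 1 + 1 by omega, pw_succ, pw_succ, hu]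
    simp

theorem complete_one (m : ℕ) (hm : 0 < m) (g : Bool → α) (s : List Bool) :
    ∃ z : List α, ([g false, g true] ++ s.map g) ++ z ∈ Lang 1 m [g false, g true] := by
  induction s using List.reverseRecOn with
  | nil =>
    refine ⟨[], ?_⟩
    have e : [g false, g true] ++ List.map g [] ++ [] = [g false, g true] := by simp
    rw [e]
    exact Relation.ReflTransGen.refl
  | append_singleton s d ih =>
    obtain ⟨z, hz⟩ := ih
    have hd : g d ∈ [g false, g true] ++ s.map g := by cases d <;> simp
    obtain ⟨z1, hz1⟩ := extend_one m hm _ (g d) hd
    refine ⟨z1 ++ z, ?_⟩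
    have h1 := lang_context [] z hz1
    simp only [List.nil_append] at h1
    have h2 := lang_trans hz h1
    have e : [g false, g true] ++ (s ++ [d]).map g ++ (z1 ++ z) =
        (([g false, g true] ++ s.map g ++ [g d]) ++ z1) ++ z := by simp
    rw [e]
    exact h2

/-- the Thue-Morse word over the letters `g false`, `g true` -/
def tw (g : Bool → α) (K : ℕ) : List α := (List.range (K + 2)).map fun i => g (tm i)

theorem tw_length (g : Bool → α) (K : ℕ) : (tw g K).length = K + 2 := by simp [tw]

theorem tw_eq (g : Bool → α) (K : ℕ) : ∃ s : List Bool,
    tw g K = [g false, g true] ++ s.map g := by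
  refine ⟨(List.range K).map fun i => tm (i + 2), ?_⟩
  unfold tw
  rw [List.range_succ_eq_map, List.range_succ_eq_map]
  simp only [List.map_cons, List.map_map]
  have h0 : tm 0 = false := rfl
  have h1 : tm 1 = true := rfl
  simp only [List.cons_append, List.nil_append, h0]
  congr 1

theorem tw_good (g : Bool → α) (hg : g false ≠ g true) (m : ℕ) (hm : 2 ≤ m) (K : ℕ) :
    Good 1 (1 + m) (tw g K) := by
  intro a f b he p hp hper
  have hinj : Function.Injective g := by
    intro x y hxy
    cases x <;> cases y <;> simp_all
  by_contra hcon
  have hlen : 2 * p + 1 ≤ f.length := by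
    have : (1 + m) * p ≥ 3 * p := Nat.mul_le_mul_right p (by omega)
    rw [one_mul, one_mul] at hcon
    omega
  have hl : a.length + f.length + b.length = K + 2 := by
    rw [← tw_length g K, he]; simp only [List.length_append]
  have hval : ∀ k, k < f.length → f[k]? = some (g (tm (a.length + k))) := by
    intro k hk
    have h1 : (tw g K)[a.length + k]? = f[k]? := by
      rw [he, List.append_assoc, List.getElem?_append_right (by omega),
        List.getElem?_append_left (by omega)]
      congr 1
      omega
    rw [← h1]
    unfold tw
    rw [List.getElem?_map, List.getElem?_range (by omega)]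
    rfl
  refine tm_overlap_free p hp a.length ?_
  intro k hk
  have h1 := hper k (by omega)
  rw [hval k (by omega), hval (k + p) (by omega)] at h1
  have h2 := hinj (Option.some.inj h1)
  rw [h2]
  congr 1
  omega

theorem adj_or (w : List α) : (∀ a ∈ w, ∀ b ∈ w, a = b) ∨
    ∃ (y0 : List α) (a b : α) (y1 : List α), w = y0 ++ (a :: b :: y1) ∧ a ≠ b := by
  induction w with
  | nil => left; simp
  | cons c w ih =>
    rcases ih with ih | ⟨y0, a, b, y1, h1, h2⟩
    · cases w with
      | nil => left; simp
      | cons d w =>
        by_cases hcd : c = d
        · left
          subst hcd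
          intro a ha b hb
          refine ih a ?_ b ?_
          · simpa using ha
          · simpa using hb
        · right
          exact ⟨[], c, d, w, rfl, hcd⟩
    · right
      exact ⟨c :: y0, a, b, y1, by rw [h1]; rfl, h2⟩

theorem one_not_regular (m : ℕ) (hm : 2 ≤ m) (w : List α)
    (hw : ¬ ∀ a ∈ w, ∀ b ∈ w, a = b) : ¬ (Lang 1 m w).IsRegular := by
  rcases adj_or w with h | ⟨y0, a, b, y1, h1, h2⟩
  · exact absurd h hw
  · refine not_regular (c := 1) (y0 := y0) (by omega) ?_
    intro K
    set g : Bool → α := fun x => if x then b else a with hg
    have hg0 : g false = a := rfl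
    have hg1 : g true = b := rfl
    obtain ⟨s, hs⟩ := tw_eq g K
    obtain ⟨z, hz⟩ := complete_one m (by omega) g s
    refine ⟨tw g K, z ++ y1, by rw [tw_length]; omega, tw_good g (by rw [hg0, hg1]; exact h2) m hm K,
      ?_⟩
    have h3 := lang_context y0 y1 hz
    rw [← hs] at h3
    have e1 : y0 ++ (tw g K ++ (z ++ y1)) = y0 ++ (tw g K ++ z ++ y1) := by simp
    have e2 : w = y0 ++ ([g false, g true] ++ y1) := by rw [h1, hg0, hg1]; rfl
    rw [e1, e2]
    exact h3

theorem pw_all {a : α} {x : List α} (h : ∀ c ∈ x, c = a) (n : ℕ) : ∀ c ∈ pw x n, c = a := by
  induction n with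
  | zero => simp
  | succ n ih =>
    rw [pw_succ]
    intro c hc
    rcases List.mem_append.1 hc with h1 | h1
    · exact h c h1
    · exact ih c h1

theorem mem_unary (m k : ℕ) (a : α) (v : List α) (hv : v ∈ Lang 1 m (List.replicate k a)) :
    (∀ c ∈ v, c = a) ∧ ∃ j, v.length = k + j * m := by
  have h' : Relation.ReflTransGen (Step 1 m) (List.replicate k a) v := hv
  clear hv
  induction h' with
  | refl => exact ⟨fun c hc => (List.mem_replicate.1 hc).2, 0, by simp⟩
  | tail _ h2 ih =>
    obtain ⟨p, x, q, h3, h4⟩ := h2
    obtain ⟨h5, j, hj⟩ := ih
    rw [pw_one] at h3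
    rw [h3] at h5 hj
    refine ⟨?_, j + x.length, ?_⟩
    · rw [h4]
      intro c hc
      rcases List.mem_append.1 hc with h6 | h6
      · rcases List.mem_append.1 h6 with h7 | h7
        · exact h5 c (by simp [h7])
        · exact pw_all (fun c hc => h5 c (by simp [hc])) _ c h7
      · exact h5 c (by simp [h6])
    · rw [h4]
      simp only [List.length_append, pw_length] at hj ⊢
      linarith [add_mul 1 m x.length, add_mul j x.length m, mul_comm m x.length]

theorem unary_mem (m k : ℕ) (hk : 0 < k) (a : α) (j : ℕ) :
    List.replicate (k + j * m) a ∈ Lang 1 m (List.replicate k a) := by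
  induction j with
  | zero => simpa using (show List.replicate k a ∈ Lang 1 m (List.replicate k a) from
      Relation.ReflTransGen.refl)
  | succ j ih =>
    refine lang_trans ih (Relation.ReflTransGen.single
      ⟨List.replicate (k + j * m - 1) a, [a], [], ?_, ?_⟩)
    · rw [pw_one, List.append_nil]
      have : k + j * m = (k + j * m - 1) + 1 := by omega
      conv_lhs => rw [this, List.replicate_succ']
    · have h1 : pw [a] (1 + m) = List.replicate (1 + m) a := by
        have : ∀ i, pw [a] i = List.replicate i a := by
          intro i
          induction i with
          | zero => simp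
          | succ i ih => rw [pw_succ, ih]; rfl
        exact this _
      rw [h1, List.append_nil, List.replicate_append_replicate]
      congr 1
      have : (j + 1) * m = j * m + m := by ring
      omega

theorem unary_iff (m k : ℕ) (hk : 0 < k) (a : α) (v : List α) :
    v ∈ Lang 1 m (List.replicate k a) ↔ ∃ j, v = List.replicate (k + j * m) a := by
  constructor
  · intro h
    obtain ⟨h1, j, hj⟩ := mem_unary m k a v h
    exact ⟨j, List.eq_replicate_iff.2 ⟨hj, h1⟩⟩
  · rintro ⟨j, rfl⟩
    exact unary_mem m k hk a j

theorem unary_regular (m : ℕ) (hm : 0 < m) (k : ℕ) (a : α) :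
    (Lang 1 m (List.replicate k a)).IsRegular := by
  refine Language.IsRegular.of_finite_range_leftQuotient ?_
  rcases Nat.eq_zero_or_pos k with hk | hk
  · subst hk
    have key : ∀ v : List α, v ∈ Lang 1 m (List.replicate 0 a) ↔ v = [] := by
      intro v
      constructor
      · intro hv
        have h' : Relation.ReflTransGen (Step 1 m) (List.replicate 0 a) v := hv
        clear hv
        induction h' with
        | refl => rfl
        | tail _ h2 ih =>
          obtain ⟨p, x, q, h3, h4⟩ := h2
          rw [pw_one, ih] at h3
          have h5 : p = [] ∧ x = [] ∧ q = [] := by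
            have := congrArg List.length h3
            simp only [List.length_append, List.length_nil] at this
            exact ⟨List.length_eq_zero_iff.1 (by omega), List.length_eq_zero_iff.1 (by omega),
              List.length_eq_zero_iff.1 (by omega)⟩
          obtain ⟨rfl, rfl, rfl⟩ := h5
          simpa using h4
      · rintro rfl
        exact Relation.ReflTransGen.refl
    refine Set.Finite.subset (Set.toFinite {{v : List α | v = []}, ∅}) ?_
    rintro _ ⟨x, rfl⟩
    by_cases hx : x = []
    · left
      subst hx
      ext v
      exact key v
    · right
      show (_ : Set (List α)) = ∅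
      ext v
      constructor
      · intro hv
        have h1 := (key (x ++ v)).1 hv
        exact absurd (List.append_eq_nil_iff.1 h1).1 hx
      · intro hv
        exact absurd hv (Set.notMem_empty v)
  · set L := Lang 1 m (List.replicate k a) with hL
    have hQ : ∀ i, ∃ i' < k + m, L.leftQuotient (List.replicate i a) =
        L.leftQuotient (List.replicate i' a) := by
      intro i
      induction i using Nat.strong_induction_on with
      | _ i ih =>
        by_cases hi : i < k + m
        · exact ⟨i, hi, rfl⟩
        · obtain ⟨i', h1, h2⟩ := ih (i - m) (by omega)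
          refine ⟨i', h1, ?_⟩
          rw [← h2]
          ext v
          show List.replicate i a ++ v ∈ L ↔ List.replicate (i - m) a ++ v ∈ L
          rw [hL, unary_iff m k hk, unary_iff m k hk]
          constructor
          · rintro ⟨j, hj⟩
            have h3 := congrArg List.length hj
            have h4 := (List.eq_replicate_iff.1 hj).2
            simp only [List.length_append, List.length_replicate] at h3
            have hj1 : 1 ≤ j := by
              by_contra h
              have : j = 0 := by omega
              subst this
              omega
            refine ⟨j - 1, List.eq_replicate_iff.2 ⟨?_, ?_⟩⟩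
            · simp only [List.length_append, List.length_replicate]
              obtain ⟨j', rfl⟩ : ∃ j', j = j' + 1 := ⟨j - 1, by omega⟩
              have : (j' + 1) * m = j' * m + m := by ring
              rw [Nat.add_sub_cancel]
              omega
            · intro b hb
              rcases List.mem_append.1 hb with h5 | h5
              · exact (List.mem_replicate.1 h5).2
              · exact h4 b (List.mem_append.2 (Or.inr h5))
          · rintro ⟨j, hj⟩
            have h3 := congrArg List.length hj
            have h4 := (List.eq_replicate_iff.1 hj).2
            simp only [List.length_append, List.length_replicate] at h3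
            refine ⟨j + 1, List.eq_replicate_iff.2 ⟨?_, ?_⟩⟩
            · simp only [List.length_append, List.length_replicate]
              have : (j + 1) * m = j * m + m := by ring
              omega
            · intro b hb
              rcases List.mem_append.1 hb with h5 | h5
              · exact (List.mem_replicate.1 h5).2
              · exact h4 b (List.mem_append.2 (Or.inr h5))
    refine Set.Finite.subset (((Set.finite_lt_nat (k + m)).image
      fun i => L.leftQuotient (List.replicate i a)).union
        (Set.finite_singleton (0 : Language α))) ?_
    rintro _ ⟨x, rfl⟩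
    by_cases hx : ∀ c ∈ x, c = a
    · left
      have e : x = List.replicate x.length a := List.eq_replicate_iff.2 ⟨rfl, hx⟩
      obtain ⟨i', h1, h2⟩ := hQ x.length
      refine ⟨i', h1, ?_⟩
      show L.leftQuotient (List.replicate i' a) = L.leftQuotient x
      conv_rhs => rw [e]
      exact h2.symm
    · right
      show L.leftQuotient x = (0 : Language α)
      ext v
      constructor
      · intro hv
        have h1 : x ++ v ∈ L := hv
        rw [hL, unary_iff m k hk] at h1
        obtain ⟨j, hj⟩ := h1
        have h4 := (List.eq_replicate_iff.1 hj).2
        exact absurd (fun c hc => h4 c (List.mem_append.2 (Or.inl hc))) hx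
      · intro hv
        exact absurd hv (Language.notMem_zero v)

/-- The classification for `n = 1`. -/
theorem one_iff (m : ℕ) (hm : 2 ≤ m) (w : List α) :
    (Lang 1 m w).IsRegular ↔ ∀ a ∈ w, ∀ b ∈ w, a = b := by
  constructor
  · intro h
    by_contra hw
    exact one_not_regular m hm w hw h
  · intro h
    cases w with
    | nil =>
      have := Classical.em (Nonempty α)
      rcases this with ⟨⟨a⟩⟩ | hne
      · exact unary_regular m (by omega) 0 a
      · have : IsEmpty α := not_nonempty_iff.1 hne
        refine Language.IsRegular.of_finite_range_leftQuotient ?_
        have : Subsingleton (List α) := by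
          constructor
          intro x y
          cases x with
          | nil =>
            cases y with
            | nil => rfl
            | cons b _ => exact (IsEmpty.false b).elim
          | cons b _ => exact (IsEmpty.false b).elim
        exact Set.toFinite _
    | cons c w =>
      have e : c :: w = List.replicate (c :: w).length c :=
        List.eq_replicate_iff.2 ⟨rfl, fun b hb => h b hb c (by simp)⟩
      rw [e]
      exact unary_regular m (by omega) _ c

end Pool.Agent.H344R3.FB
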