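import Pool.Agent.H344R3.FB.Sub

/-!
# The runs in the iterated images of a letter
-/

set_option autoImplicit false

namespace Pool.Agent.H344R3.FB

/-- the estimate on the runs -/
def SS (V : List Bool) : Prop :=
  ∀ a f b : List Bool, V = a ++ (f ++ b) → ∀ p, 0 < p → p ≤ f.length → Per p f →
    ∀ l, 3 * (W l f + (al l).1 + (al l).2) ≤ 11 * W l (f.take p) + 6

theorem SS_base : SS [false] := by
  intro a f b h p hp hpf hper l
  have hf : f = [false] := by
    cases a with
    | nil =>
      cases f with
      | nil => simp at hpf; omega
      | cons c f =>
        simp only [List.nil_append, List.cons_append, List.cons.injEq] at h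
        obtain ⟨h1, h2⟩ := h
        have h3 : f = [] := by
          cases f with
          | nil => rfl
          | cons d f => simp at h2
        rw [h3, ← h1]
    | cons c a =>
      simp only [List.cons_append, List.cons.injEq] at h
      have h2 := h.2
      cases a with
      | nil =>
        cases f with
        | nil => simp at hpf; omega
        | cons d f => simp at h2
      | cons d a => simp at h2
  subst hf
  have hp1 : p = 1 := by simp at hpf; omega
  subst hp1
  have := al_ineq l
  simp [W]
  omega

theorem sg_left (V : List Bool) : ∀ a f : List Bool, sg V = a ++ f →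
    ∃ V1 V2 r : List Bool, V = V1 ++ V2 ∧ f = r ++ sg V2 ∧
      (r = [] ∨ r = [true] ∨ (r = [true, true] ∧ ∃ V0, V1 = V0 ++ [true])) := by
  induction V with
  | nil =>
    intro a f h
    refine ⟨[], [], [], rfl, ?_, Or.inl rfl⟩
    simp at h
    simp [h.2]
  | cons c V ih =>
    intro a f h
    rw [sg_cons] at h
    rcases List.append_eq_append_iff.1 h with ⟨a', ha, hb⟩ | ⟨c', ha, hb⟩
    · obtain ⟨V1, V2, r, h1, h2, h3⟩ := ih a' f hb
      refine ⟨c :: V1, V2, r, by rw [h1]; rfl, h2, ?_⟩
      rcases h3 with h3 | h3 | ⟨h3, V0, h4⟩
      · exact Or.inl h3
      · exact Or.inr (Or.inl h3)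
      · exact Or.inr (Or.inr ⟨h3, c :: V0, by rw [h4]; rfl⟩)
    · -- sl c = a ++ c'
      cases a with
      | nil =>
        refine ⟨[], c :: V, [], rfl, ?_, Or.inl rfl⟩
        rw [hb, sg_cons, ha]
        simp
      | cons d a =>
        refine ⟨[c], V, c', rfl, hb, ?_⟩
        cases c
        · simp only [sl, List.cons_append, List.cons.injEq] at ha
          obtain ⟨-, ha⟩ := ha
          cases a with
          | nil => simp at ha; exact Or.inr (Or.inl ha.symm)
          | cons e a =>
            simp at ha
            exact Or.inl ha.2.2
        · simp only [sl, List.cons_append, List.cons.injEq] at ha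
          obtain ⟨-, ha⟩ := ha
          cases a with
          | nil => simp at ha; exact Or.inr (Or.inr ⟨ha.symm, [], rfl⟩)
          | cons e a =>
            simp only [List.cons_append, List.cons.injEq] at ha
            cases a with
            | nil => simp at ha; exact Or.inr (Or.inl ha.2.symm)
            | cons g a => simp at ha; exact Or.inl ha.2.2.2

theorem sg_right (V : List Bool) : ∀ h b : List Bool, sg V = h ++ b →
    ∃ g V3 r : List Bool, V = g ++ V3 ∧ h = sg g ++ r ∧ RE g r := by
  induction V with
  | nil =>
    intro h b he
    refine ⟨[], [], [], rfl, ?_, Or.inr (Or.inr ⟨rfl, by simp⟩)⟩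
    simp at he
    simp [he.1]
  | cons c V ih =>
    intro h b he
    rw [sg_cons] at he
    cases c
    · match h, he with
      | [], he => exact ⟨[], _, [], rfl, rfl, Or.inr (Or.inr ⟨rfl, by simp⟩)⟩
      | [x], he =>
        simp only [sl, List.cons_append, List.nil_append, List.cons.injEq] at he
        exact ⟨[], _, [false], rfl, by rw [← he.1]; rfl, Or.inl rfl⟩
      | [x, y], he =>
        simp only [sl, List.cons_append, List.nil_append, List.cons.injEq] at he
        exact ⟨[], _, [false, true], rfl, by rw [← he.1, ← he.2.1]; rfl, Or.inr (Or.inl rfl)⟩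
      | x :: y :: z :: h, he =>
        simp only [sl, List.cons_append, List.nil_append, List.cons.injEq] at he
        obtain ⟨hx, hy, he⟩ := he
        obtain ⟨g, V3, r, h1, h2, h3⟩ := ih (z :: h) b (by simpa using he)
        refine ⟨false :: g, V3, r, by rw [h1]; rfl, ?_, ?_⟩
        · rw [sg_cons, ← hx, ← hy]
          rw [List.append_assoc, ← h2]
          rfl
        · rcases h3 with h3 | h3 | ⟨h3, h4⟩
          · exact Or.inl h3
          · exact Or.inr (Or.inl h3)
          · refine Or.inr (Or.inr ⟨h3, ?_⟩)
            intro g' hg
            cases g' with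
            | nil =>
              simp at hg
              rw [hg, h3] at h2
              simp at h2
            | cons d g' =>
              simp only [List.cons_append, List.cons.injEq] at hg
              exact h4 g' hg.2
    · match h, he with
      | [], he => exact ⟨[], _, [], rfl, rfl, Or.inr (Or.inr ⟨rfl, by simp⟩)⟩
      | [x], he =>
        simp only [sl, List.cons_append, List.nil_append, List.cons.injEq] at he
        exact ⟨[], _, [false], rfl, by rw [← he.1]; rfl, Or.inl rfl⟩
      | [x, y], he =>
        simp only [sl, List.cons_append, List.nil_append, List.cons.injEq] at he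
        exact ⟨[], _, [false, true], rfl, by rw [← he.1, ← he.2.1]; rfl, Or.inr (Or.inl rfl)⟩
      | x :: y :: z :: h, he =>
        simp only [sl, List.cons_append, List.nil_append, List.cons.injEq] at he
        obtain ⟨hx, hy, hz, he⟩ := he
        obtain ⟨g, V3, r, h1, h2, h3⟩ := ih h b he
        refine ⟨true :: g, V3, r, by rw [h1]; rfl, ?_, ?_⟩
        · rw [sg_cons, ← hx, ← hy, ← hz, List.append_assoc, ← h2]
          rfl
        · rcases h3 with h3 | h3 | ⟨h3, h4⟩
          · exact Or.inl h3
          · exact Or.inr (Or.inl h3)
          · refine Or.inr (Or.inr ⟨h3, ?_⟩)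
            intro g' hg
            cases g' with
            | nil => simp at hg
            | cons d g' =>
              simp only [List.cons_append, List.cons.injEq] at hg
              exact h4 g' hg.2

theorem sg_sync (g : List Bool) : ∀ r s t : List Bool, RE g r → sg g ++ r = s ++ (false :: t) →
    ∃ y g1 : List Bool, g = y ++ g1 ∧ s = sg y ∧ sg g1 ++ r = false :: t := by
  induction g with
  | nil =>
    intro r s t hr h
    refine ⟨[], [], rfl, ?_, ?_⟩
    · rcases hr with hr | hr | ⟨hr, -⟩
      · rw [hr] at h
        cases s with
        | nil => rfl
        | cons c s => simp at h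
      · rw [hr] at h
        match s, h with
        | [], _ => rfl
        | [x], h => simp at h
        | x :: y :: s, h => simp at h
      · rw [hr] at h; simp at h
    · rcases hr with hr | hr | ⟨hr, -⟩
      · rw [hr] at h ⊢
        cases s with
        | nil => simpa using h
        | cons c s => simp at h
      · rw [hr] at h ⊢
        match s, h with
        | [], h => simpa using h
        | [x], h => simp at h
        | x :: y :: s, h => simp at h
      · rw [hr] at h; simp at h
  | cons c g ih =>
    intro r s t hr h
    cases s with
    | nil => exact ⟨[], c :: g, rfl, rfl, by simpa using h⟩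
    | cons d s =>
      rw [sg_cons, List.append_assoc] at h
      have key : ∃ s', d :: s = sl c ++ s' ∧ sg g ++ r = s' ++ (false :: t) := by
        cases c
        · simp only [sl, List.cons_append, List.nil_append, List.cons.injEq] at h
          obtain ⟨h1, h2⟩ := h
          cases s with
          | nil => simp at h2
          | cons e s =>
            simp only [List.cons_append, List.cons.injEq] at h2
            exact ⟨s, by rw [← h1, ← h2.1]; rfl, h2.2⟩
        · simp only [sl, List.cons_append, List.nil_append, List.cons.injEq] at h
          obtain ⟨h1, h2⟩ := h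
          match s, h2 with
          | [], h2 => simp at h2
          | [x], h2 => simp at h2
          | x :: y :: s, h2 =>
            simp only [List.cons_append, List.cons.injEq] at h2
            exact ⟨s, by rw [← h1, ← h2.1, ← h2.2.1]; rfl, h2.2.2⟩
      obtain ⟨s', h1, h2⟩ := key
      obtain ⟨y, g1, h3, h4, h5⟩ := ih r s' t hr.tail h2
      exact ⟨c :: y, g1, by rw [h3]; rfl, by rw [h1, h4, sg_cons], h5⟩

theorem RE.right {y g r : List Bool} (h : RE (y ++ g) r) : RE g r := by
  induction y with
  | nil => exact h
  | cons c y ih => exact ih h.tail

theorem per_window (l : ℕ) {p : ℕ} (hp : 0 < p) (f : List Bool) (hper : Per p f) :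
    ∀ k, k + p ≤ f.length → W l ((f.drop k).take p) = W l (f.take p) := by
  intro k
  induction k with
  | zero => intro _; simp
  | succ k ih =>
    intro hk
    rw [← ih (by omega)]
    have h1 := hper k (by omega)
    have hk' : k < f.length := by omega
    rw [List.getElem?_eq_getElem hk', List.getElem?_eq_getElem (by omega)] at h1
    have h2 : f.drop k = f[k] :: f.drop (k + 1) := List.drop_eq_getElem_cons hk'
    rw [h2]
    obtain ⟨q, rfl⟩ : ∃ q, p = q + 1 := ⟨p - 1, by omega⟩
    rw [List.take_succ_cons, List.take_add_one (i := q) (l := f.drop (k + 1)), W_append]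
    rw [show f[k] :: List.take q (List.drop (k + 1) f) =
      [f[k]] ++ List.take q (List.drop (k + 1) f) from rfl, W_append]
    have h3 : (f.drop (k + 1))[q]? = some f[k] := by
      rw [List.getElem?_drop]
      rw [show k + 1 + q = k + (q + 1) by omega, List.getElem?_eq_getElem (by omega), ← h1]
    rw [h3]
    simp only [Option.toList_some]
    omega

theorem W_pos_two (l : ℕ) {y : List Bool} (hy : 2 ≤ y.length) (hna : ∀ a b, y ≠ a ++ ([false, false] ++ b)) :
    (al l).1 + (al l).2 ≤ W l y := by
  have h0 := al_ineq l
  match y, hy with
  | c :: d :: y, _ =>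
    rw [show c :: d :: y = [c, d] ++ y from rfl, W_append]
    cases c <;> cases d
    · exact absurd rfl (hna [] y)
    · simp [W]
    · simp [W]
    · simp [W]; omega

theorem SS_step {V : List Bool} (hV : SS V) : SS (sg V) := by
  intro a f b h p hp hpf hper l
  have h0 := al_ineq l
  have hna : ∀ a' b', f ≠ a' ++ ([false, false] ++ b') := by
    intro a' b' hf
    rw [hf] at h
    exact no_aa V (a ++ a') (b' ++ b) (by rw [h]; simp)
  have hnb : ∀ a' b', f ≠ a' ++ ([true, true, true] ++ b') := by
    intro a' b' hf
    rw [hf] at h
    exact no_bbb V (a ++ a') (b' ++ b) (by rw [h]; simp)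
  by_cases hp1 : p = 1
  · subst hp1
    -- all letters are equal
    match f, hpf, hper, hna, hnb with
    | [c], _, _, _, _ =>
      cases c <;> simp [W] <;> omega
    | [c, d], _, hper, hna, _ =>
      have := hper 0 (by simp)
      simp at this
      subst this
      cases c
      · exact absurd rfl (hna [] [])
      · simp [W]; omega
    | c :: d :: e :: f, _, hper, hna, hnb =>
      have h1 := hper 0 (by simp)
      have h2 := hper 1 (by simp)
      simp at h1 h2
      subst h1
      subst h2
      cases c
      · exact absurd rfl (hna [] (false :: f))
      · exact absurd rfl (hnb [] f)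
  have hp2 : 2 ≤ p := by omega
  have hy : (al l).1 + (al l).2 ≤ W l (f.take p) := by
    refine W_pos_two l (by rw [List.length_take]; omega) ?_
    intro a' b' he
    refine hna a' (b' ++ f.drop p) ?_
    conv_lhs => rw [← List.take_append_drop p f, he]
    simp
  by_cases h2p : f.length ≤ 2 * p
  · -- the extra part is a beginning of the period
    have h1 : W l (f.drop p) ≤ W l (f.take p) := by
      have e : f.drop p = (f.take p).take (f.length - p) := by
        apply List.ext_getElem?
        intro i
        rw [List.getElem?_drop, List.getElem?_take]
        split_ifs with hi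
        · rw [List.getElem?_take_of_lt (by omega)]
          rw [Nat.add_comm]
          exact (hper i (by omega)).symm
        · exact List.getElem?_eq_none (by omega)
      rw [e]
      conv_rhs => rw [← List.take_append_drop (f.length - p) (f.take p), W_append]
      omega
    have h2 : W l f = W l (f.take p) + W l (f.drop p) := by
      rw [← W_append, List.take_append_drop]
    omega
  -- the long case
  obtain ⟨V1, V2, r0, e1, e2, e3⟩ := sg_left V a (f ++ b) h
  have hr0 : r0.length ≤ 2 := by
    rcases e3 with e3 | e3 | ⟨e3, -⟩ <;> rw [e3] <;> simp
  obtain ⟨hh, hf, hb⟩ : ∃ hh, f = r0 ++ hh ∧ sg V2 = hh ++ b := by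
    rcases List.append_eq_append_iff.1 e2 with ⟨x, ha, hb⟩ | ⟨x, ha, hb⟩
    · have := congrArg List.length ha
      rw [List.length_append] at this
      have hx : x = [] := List.eq_nil_of_length_eq_zero (by omega)
      subst hx
      exact ⟨[], by simpa using ha.symm, by simpa using hb.symm⟩
    · exact ⟨x, ha, hb⟩
  obtain ⟨g0, V3, r1, e4, e5, e6⟩ := sg_right V2 hh b hb
  have hlen : hh.length + r0.length = f.length := by rw [hf, List.length_append]; omega
  have hperh : Per p hh := by
    have : Per p (r0 ++ hh ++ []) := by
      rw [List.append_nil, ← hf]; exact hper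
    exact this.fac
  have hr1 : r1.length ≤ 2 := by
    rcases e6 with e6 | e6 | ⟨e6, -⟩ <;> rw [e6] <;> simp
  have hg0 : g0 ≠ [] := by
    rintro rfl
    have := congrArg List.length e5
    simp at this
    omega
  have hh0 : hh[0]? = some false := by
    cases g0 with
    | nil => exact absurd rfl hg0
    | cons c g0 => rw [e5]; cases c <;> simp [sl]
  have hhp : hh[p]? = some false := by
    have := hperh 0 (by omega)
    rw [Nat.zero_add] at this
    rw [← this]; exact hh0
  have hdrop : ∃ t, hh.drop p = false :: t := by
    have hpl : p < hh.length := by omega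
    rw [List.getElem?_eq_getElem hpl] at hhp
    exact ⟨hh.drop (p + 1), by rw [List.drop_eq_getElem_cons hpl]; simp at hhp; rw [hhp]⟩
  obtain ⟨t, ht⟩ := hdrop
  obtain ⟨y, g1, e7, e8, e9⟩ := sg_sync g0 r1 (hh.take p) t e6 (by
    rw [← e5, ← ht, List.take_append_drop])
  have hpre : ∃ z, hh = (false :: t) ++ z := by
    rw [← ht]
    refine ⟨hh.drop (hh.length - p), ?_⟩
    have e : hh.drop p = hh.take (hh.length - p) := by
      apply List.ext_getElem?
      intro i
      rw [List.getElem?_drop, List.getElem?_take]
      split_ifs with hi
      · rw [Nat.add_comm]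
        exact (hperh i (by omega)).symm
      · exact List.getElem?_eq_none (by omega)
    rw [e, List.take_append_drop]
  obtain ⟨z, hz⟩ := hpre
  have hd1 : dec hh = g0 := by rw [e5]; exact dec_sg _ _ e6
  have hd2 : dec (false :: t) = g1 := by
    rw [← e9]
    exact dec_sg _ _ (RE.right (y := y) (by rw [← e7]; exact e6))
  obtain ⟨s, hs⟩ := dec_append (false :: t) z
  rw [← hz, hd1, hd2] at hs
  have hylen : 0 < y.length := by
    rcases Nat.eq_zero_or_pos y.length with h5 | h5
    · have := List.eq_nil_of_length_eq_zero h5
      subst this
      have := congrArg List.length e8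
      rw [List.length_take, sg_nil, List.length_nil] at this
      omega
    · exact h5
  have hperg : Per y.length g0 := by
    intro i hi
    have h5 : g0[i + y.length]? = g1[i]? := by
      rw [e7, List.getElem?_append_right (by omega)]
      congr 1
      omega
    have h6 : i < g1.length := by
      have := congrArg List.length e7
      rw [List.length_append] at this
      omega
    rw [h5]
    rw [hs, List.getElem?_append_left h6]
  have hWt : W l (f.take p) = W (l + 1) y := by
    rw [← W_sg, ← e8]
    have h5 := per_window l hp f hper r0.length (by omega)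
    rw [← h5]
    congr 2
    rw [hf, List.drop_append_of_le_length (le_refl _), List.drop_length]
    simp
  have hWf : W l f = W l r0 + (W (l + 1) g0 + W l r1) := by
    rw [hf, e5, W_append, W_append, W_sg]
  have hWr1 : W l r1 ≤ (al l).1 + (al l).2 := by
    rcases e6 with e6 | e6 | ⟨e6, -⟩ <;> rw [e6] <;> simp [W]
  have hal : (al (l + 1)).1 + (al (l + 1)).2 = 2 * (al l).1 + 3 * (al l).2 := by
    simp only [al]; ring
  have htake : g0.take y.length = y := by rw [e7]; simp
  have hyg : y.length ≤ g0.length := by rw [e7]; simp
  rcases e3 with e3 | e3 | ⟨e3, V0, e10⟩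
  · have h5 := hV V1 g0 V3 (by rw [e1, e4]) y.length hylen hyg hperg (l + 1)
    rw [htake] at h5
    have h6 : W l r0 = 0 := by rw [e3]; simp
    omega
  · have h5 := hV V1 g0 V3 (by rw [e1, e4]) y.length hylen hyg hperg (l + 1)
    rw [htake] at h5
    have h6 : W l r0 = (al l).2 := by rw [e3]; simp [W]
    omega
  · -- the letter before `g0` is `b`
    have h6 : W l r0 = 2 * (al l).2 := by rw [e3]; simp [W]
    -- the last letter of `y` is `b`
    have hlast : ∃ y', y = y' ++ [true] := by
      obtain ⟨y', c, hc⟩ : ∃ y' c, y = y' ++ [c] :=
        ⟨y.dropLast, y.getLast (List.ne_nil_of_length_pos hylen),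
          (List.dropLast_append_getLast _).symm⟩
      cases c
      · exfalso
        have hl := congrArg List.length e8
        rw [List.length_take] at hl
        have h7 : hh.take p = (sg y' ++ [false]) ++ [true] := by
          rw [e8, hc, sg_append]; simp [sl]
        have h8 : p = (sg y').length + 2 := by
          have := congrArg List.length h7
          simp only [List.length_take, List.length_append, List.length_cons,
            List.length_nil] at this
          omega
        have h9 : hh[p - 2]? = some false := by
          have : (hh.take p)[p - 2]? = some false := by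
            rw [h7, h8]
            simp
          rwa [List.getElem?_take_of_lt (by omega)] at this
        have h10 := hper 0 (by omega)
        rw [hf, e3, Nat.zero_add] at h10
        rw [List.getElem?_append_right (i := p) (by simp; omega)] at h10
        simp only [List.length_cons, List.length_nil] at h10
        rw [show p - (0 + 1 + 1) = p - 2 by omega, h9] at h10
        simp at h10
      · exact ⟨y', hc⟩
    obtain ⟨y', hy'⟩ := hlast
    have hperg' : Per y.length (true :: g0) := by
      intro i hi
      cases i with
      | zero =>
        rw [Nat.zero_add, hy', e7, hy']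
        simp
      | succ i =>
        rw [show i + 1 + y.length = (i + y.length) + 1 by omega]
        simp only [List.getElem?_cons_succ]
        exact hperg i (by simp at hi; omega)
    have h5 := hV V0 (true :: g0) V3 (by rw [e1, e4, e10]; simp) y.length hylen
      (by simp; omega) hperg' (l + 1)
    have h7 : W (l + 1) ((true :: g0).take y.length) = W (l + 1) y := by
      have h8 := per_window (l + 1) hylen (true :: g0) hperg' 1 (by
        simp; omega)
      rw [← h8]
      simp [htake]
    have h8 : W (l + 1) (true :: g0) = (al (l + 1)).2 + W (l + 1) g0 := by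
      rw [show true :: g0 = [true] ++ g0 from rfl, W_append]
      simp [W]
    have h9 : (al (l + 1)).2 = (al l).1 + 2 * (al l).2 := rfl
    rw [h7, h8] at h5
    omega

theorem SS_iter (k : ℕ) : SS (sg^[k] [false]) := by
  induction k with
  | zero => exact SS_base
  | succ k ih => rw [Function.iterate_succ_apply']; exact SS_step ih

theorem good_of_SS {V : List Bool} (hV : SS V) {m : ℕ} (hm : 2 ≤ m) : Good 3 (2 + m) V := by
  intro a f b he p hp hper
  by_cases hpf : p ≤ f.length
  · have h1 := hV a f b (by rw [he]; simp) p hp hpf hper 0
    rw [W_zero, W_zero] at h1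
    simp only [al, List.length_take] at h1
    rw [min_eq_left hpf] at h1
    nlinarith
  · nlinarith

end Pool.Agent.H344R3.FB
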