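import Pool.Agent.H344R3.FB.NonReg

/-!
# The substitution `a → ab`, `b → abb` and its runs

`false` is the letter `a`, `true` is the letter `b`.
-/

set_option autoImplicit false

namespace Pool.Agent.H344R3.FB

/-- image of a letter -/
def sl : Bool → List Bool
  | false => [false, true]
  | true => [false, true, true]

/-- image of a word -/
def sg (v : List Bool) : List Bool := v.flatMap sl

@[simp] theorem sg_nil : sg [] = [] := rfl
@[simp] theorem sg_cons (c : Bool) (v : List Bool) : sg (c :: v) = sl c ++ sg v := by
  simp [sg]
@[simp] theorem sg_append (u v : List Bool) : sg (u ++ v) = sg u ++ sg v := by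
  simp [sg]

/-- the pairs of lengths of the iterated images of the two letters -/
def al : ℕ → ℕ × ℕ
  | 0 => (1, 1)
  | l + 1 => ((al l).1 + (al l).2, (al l).1 + 2 * (al l).2)

theorem al_ineq (l : ℕ) : 1 ≤ (al l).1 ∧ (al l).1 ≤ (al l).2 ∧ 3 * (al l).1 ≤ 2 * (al l).2 + 1 ∧
    3 * (al l).2 ≤ 5 * (al l).1 := by
  induction l with
  | zero => simp [al]
  | succ l ih =>
    simp only [al]
    omega

/-- weight of a word -/
def W (l : ℕ) (v : List Bool) : ℕ := v.count false * (al l).1 + v.count true * (al l).2

@[simp] theorem W_nil (l : ℕ) : W l [] = 0 := by simp [W]

theorem W_append (l : ℕ) (u v : List Bool) : W l (u ++ v) = W l u + W l v := by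
  simp only [W, List.count_append]; ring

theorem W_sg (l : ℕ) (v : List Bool) : W l (sg v) = W (l + 1) v := by
  induction v with
  | nil => simp
  | cons c v ih =>
    rw [sg_cons, W_append, ih]
    cases c
    · simp only [sl, W, al, List.count_cons, List.count_nil, beq_iff_eq]
      simp
      ring
    · simp only [sl, W, al, List.count_cons, List.count_nil, beq_iff_eq]
      simp
      ring

theorem W_zero (v : List Bool) : W 0 v = v.length := by
  induction v with
  | nil => simp
  | cons c v ih =>
    rw [show c :: v = [c] ++ v from rfl, W_append, ih, List.length_append]
    cases c <;> simp [W, al]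

/-- no two consecutive `a`, no three consecutive `b` in an image -/
theorem no_aa (v : List Bool) : ∀ a b, sg v ≠ a ++ ([false, false] ++ b) := by
  induction v with
  | nil => intro a b h; simp at h
  | cons c v ih =>
    intro a b h
    rw [sg_cons] at h
    have hv : ∀ r, sg v = false :: r → ∃ r', r = true :: r' := by
      intro r hr
      cases v with
      | nil => simp at hr
      | cons d v =>
        cases d <;> simp [sl] at hr <;> exact ⟨_, hr.symm⟩
    cases c
    · simp only [sl] at h
      match a, h with
      | [], h => simp at h
      | [x], h =>
        simp at h
      | x :: y :: a, h =>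
        simp only [List.cons_append, List.nil_append, List.cons.injEq] at h
        exact ih a b (by simpa using h.2.2)
    · simp only [sl] at h
      match a, h with
      | [], h => simp at h
      | [x], h => simp at h
      | [x, y], h => simp at h
      | x :: y :: z :: a, h =>
        simp only [List.cons_append, List.nil_append, List.cons.injEq] at h
        exact ih a b (by simpa using h.2.2.2)

theorem no_bbb (v : List Bool) : ∀ a b, sg v ≠ a ++ ([true, true, true] ++ b) := by
  induction v with
  | nil => intro a b h; simp at h
  | cons c v ih =>
    intro a b h
    rw [sg_cons] at h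
    have hv : ∀ r, sg v ≠ true :: r := by
      intro r hr
      cases v with
      | nil => simp at hr
      | cons d v => cases d <;> simp [sl] at hr
    cases c
    · simp only [sl] at h
      match a, h with
      | [], h => simp at h
      | [x], h =>
        simp only [List.cons_append, List.nil_append, List.cons.injEq] at h
        exact hv _ h.2.2
      | x :: y :: a, h =>
        simp only [List.cons_append, List.nil_append, List.cons.injEq] at h
        exact ih a b (by simpa using h.2.2)
    · simp only [sl] at h
      match a, h with
      | [], h => simp at h
      | [x], h =>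
        simp only [List.cons_append, List.nil_append, List.cons.injEq] at h
        exact hv _ h.2.2.2
      | [x, y], h =>
        simp only [List.cons_append, List.nil_append, List.cons.injEq] at h
        exact hv _ h.2.2.2
      | x :: y :: z :: a, h =>
        simp only [List.cons_append, List.nil_append, List.cons.injEq] at h
        exact ih a b (by simpa using h.2.2.2)

/-- decoding -/
def dec : List Bool → List Bool
  | false :: true :: true :: r => true :: dec r
  | false :: true :: false :: r => false :: dec (false :: r)
  | _ => []
termination_by l => l.length

theorem dec_true (r : List Bool) : dec (false :: true :: true :: r) = true :: dec r := by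
  rw [dec]
theorem dec_false (r : List Bool) :
    dec (false :: true :: false :: r) = false :: dec (false :: r) := by
  rw [dec]

/-- the right ends after which decoding is possible -/
def RE (g r : List Bool) : Prop :=
  r = [false] ∨ r = [false, true] ∨ (r = [] ∧ ∀ g', g ≠ g' ++ [false])

theorem RE.tail {c : Bool} {g r : List Bool} (h : RE (c :: g) r) : RE g r := by
  rcases h with h | h | ⟨h1, h2⟩
  · exact Or.inl h
  · exact Or.inr (Or.inl h)
  · refine Or.inr (Or.inr ⟨h1, fun g' hg => h2 (c :: g') (by rw [hg]; rfl)⟩)

theorem dec_sg (g r : List Bool) (h : RE g r) : dec (sg g ++ r) = g := by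
  induction g with
  | nil =>
    rcases h with h | h | ⟨h1, -⟩
    · rw [h]; simp [dec]
    · rw [h]; simp [dec]
    · rw [h1]; simp [dec]
  | cons c g ih =>
    have h' := h.tail
    rw [sg_cons]
    cases c
    · -- the next letter is `a`
      have hn : ∃ s, sg g ++ r = false :: s := by
        cases g with
        | nil =>
          rcases h with h | h | ⟨h1, h2⟩
          · exact ⟨[], by rw [h]; rfl⟩
          · exact ⟨[true], by rw [h]; rfl⟩
          · exact absurd rfl (h2 [])
        | cons d g => cases d <;> exact ⟨_, by rw [sg_cons]; rfl⟩
      obtain ⟨s, hs⟩ := hn
      have e : sl false ++ sg g ++ r = false :: true :: false :: s := by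
        rw [List.append_assoc, hs]; rfl
      rw [e, dec_false, ← hs, ih h']
    · have e : sl true ++ sg g ++ r = false :: true :: true :: (sg g ++ r) := by
        rw [List.append_assoc]; rfl
      rw [e, dec_true, ih h']

theorem dec_append (h r : List Bool) : ∃ s, dec (h ++ r) = dec h ++ s := by
  induction hk : h.length using Nat.strong_induction_on generalizing h with
  | _ k ih =>
    match h, hk with
    | false :: true :: true :: h, hk =>
      obtain ⟨s, hs⟩ := ih h.length (by simp at hk; omega) h rfl
      refine ⟨s, ?_⟩
      rw [show false :: true :: true :: h ++ r = false :: true :: true :: (h ++ r) from rfl,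
        dec_true, dec_true, hs]
      rfl
    | false :: true :: false :: h, hk =>
      obtain ⟨s, hs⟩ := ih (false :: h).length (by simp at hk ⊢; omega) (false :: h) rfl
      refine ⟨s, ?_⟩
      rw [show false :: true :: false :: h ++ r = false :: true :: false :: (h ++ r) from rfl,
        dec_false, dec_false]
      rw [show false :: (h ++ r) = (false :: h) ++ r from rfl, hs]
      rfl
    | [], hk => exact ⟨dec r, by simp [dec]⟩
    | true :: h, hk => exact ⟨dec (true :: h ++ r), by simp [dec]⟩
    | [false], hk => exact ⟨dec ([false] ++ r), by simp [dec]⟩
    | false :: false :: h, hk => exact ⟨dec (false :: false :: h ++ r), by simp [dec]⟩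
    | [false, true], hk => exact ⟨dec ([false, true] ++ r), by simp [dec]⟩

end Pool.Agent.H344R3.FB
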