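import Pool.Agent.H344R3.FB.Runs

/-!
# `n = 2` and `m ≥ 2`: a binary word with a non-regular language
-/

set_option autoImplicit false

namespace Pool.Agent.H344R3.FB

variable {α : Type*}

/-- `u` is the beginning of a word that is derived from `u'`. -/
def Ext (n m : ℕ) (u u' : List α) : Prop := ∃ z, u ++ z ∈ Lang n m u'

theorem Ext.trans {n m : ℕ} {u u' u'' : List α} (h1 : Ext n m u u') (h2 : Ext n m u' u'') :
    Ext n m u u'' := by
  obtain ⟨z, hz⟩ := h1
  obtain ⟨z', hz'⟩ := h2
  refine ⟨z ++ z', ?_⟩
  have := lang_context [] z' hz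
  simp only [List.nil_append, List.append_assoc] at this
  exact lang_trans hz' this

theorem Ext.refl {n m : ℕ} (u : List α) : Ext n m u u :=
  ⟨[], by simp only [List.append_nil]; exact Relation.ReflTransGen.refl⟩

theorem Ext.letter {m : ℕ} (hm : 0 < m) (u x : List α) (d : α) :
    Ext 2 m (u ++ ((d :: x) ++ (d :: x)) ++ [d]) (u ++ ((d :: x) ++ (d :: x))) := by
  obtain ⟨k, rfl⟩ : ∃ k, m = k + 1 := ⟨m - 1, by omega⟩
  refine ⟨x ++ pw (d :: x) k, ?_⟩
  refine Relation.ReflTransGen.single ⟨u, d :: x, [], ?_, ?_⟩
  · rw [show (2 : ℕ) = 1 + 1 from rfl, pw_succ, pw_one]; simp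
  · rw [show 2 + (k + 1) = (k + 1) + 1 + 1 by omega, pw_succ, pw_succ, pw_succ]
    simp

theorem pw_sg (x : List Bool) (k : ℕ) : sg (pw x k) = pw (sg x) k := by
  induction k with
  | zero => simp
  | succ k ih => rw [pw_succ, pw_succ, sg_append, ih]

theorem lang_sg {n m : ℕ} {v w : List Bool} (h : v ∈ Lang n m w) : sg v ∈ Lang n m (sg w) := by
  have h' : Relation.ReflTransGen (Step n m) w v := h
  show Relation.ReflTransGen (Step n m) _ _
  induction h' with
  | refl => exact Relation.ReflTransGen.refl
  | tail _ h2 ih =>
    refine (ih (by assumption)).tail ?_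
    obtain ⟨p, x, q, h3, h4⟩ := h2
    exact ⟨sg p, sg x, sg q, by rw [h3]; simp [pw_sg], by rw [h4]; simp [pw_sg]⟩

theorem Ext.sg {n m : ℕ} {u u' : List Bool} (h : Ext n m u u') :
    Ext n m (sg u) (sg u') := by
  obtain ⟨z, hz⟩ := h
  exact ⟨FB.sg z, by rw [← sg_append]; exact lang_sg hz⟩

/-- the check that the last letter of `v`, of length `k + 1`, ends a factor `x x x_0`, where
`|x| = p + 1` -/
def chk (v : List Bool) (k p : ℕ) : Bool :=
  let t := (v.take (k + 1)).drop (k - (2 * p + 2))
  let x := t.take (p + 1)
  decide (2 * p + 2 ≤ k) && decide (k < v.length) && (t == x ++ x ++ x.take 1)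

theorem ext_of_chk {m : ℕ} (hm : 0 < m) {v : List Bool} {k p : ℕ} (h : chk v k p = true) :
    Ext 2 m (v.take (k + 1)) (v.take k) := by
  simp only [chk, Bool.and_eq_true, decide_eq_true_eq, beq_iff_eq] at h
  obtain ⟨⟨h1, h2⟩, h3⟩ := h
  set t := (v.take (k + 1)).drop (k - (2 * p + 2)) with ht
  have htl : t.length = 2 * p + 3 := by
    rw [ht, List.length_drop, List.length_take]; omega
  obtain ⟨d, x, hx⟩ : ∃ d x, t.take (p + 1) = d :: x := by
    cases ht' : t with
    | nil => rw [ht'] at htl; simp at htl
    | cons d t' => exact ⟨d, t'.take p, by simp⟩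
  rw [hx] at h3
  have e1 : v.take (k + 1) =
      v.take (k - (2 * p + 2)) ++ ((d :: x) ++ (d :: x)) ++ [d] := by
    have : v.take (k + 1) = (v.take (k + 1)).take (k - (2 * p + 2)) ++ t := by
      rw [ht, List.take_append_drop]
    rw [this, h3, List.take_take]
    rw [min_eq_left (by omega)]
    simp
  have e2 : v.take k = v.take (k - (2 * p + 2)) ++ ((d :: x) ++ (d :: x)) := by
    have h4 : v.take k = (v.take (k + 1)).dropLast := by
      rw [List.dropLast_eq_take, List.take_take, List.length_take]
      congr 1
      omega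
    rw [h4, e1, List.dropLast_concat]
  rw [e1, e2]
  exact Ext.letter hm _ _ _

/-- the witness -/
def wt : List Bool := sg^[4] [false]

/-- all checks for the passage from the witness to its image -/
def allchk : Bool :=
  (List.range 55).all fun i => (List.range 45).any fun p => chk (sg wt) (34 + i) p

theorem allchk_true : allchk = true := by decide +kernel

theorem wt_take : (sg wt).take 34 = wt ∧ (sg wt).length = 34 + 55 := by decide +kernel

theorem ext_base {m : ℕ} (hm : 0 < m) : Ext 2 m (sg wt) wt := by
  have h : ∀ i ≤ 55, Ext 2 m ((sg wt).take (34 + i)) wt := by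
    intro i
    induction i with
    | zero =>
      intro _
      rw [Nat.add_zero, wt_take.1]
      exact Ext.refl _
    | succ i ih =>
      intro hi
      have h1 := allchk_true
      simp only [allchk, List.all_eq_true, List.any_eq_true, List.mem_range] at h1
      obtain ⟨p, -, hp⟩ := h1 i (by omega)
      exact (ext_of_chk hm hp).trans (ih (by omega))
  have h2 := h 55 (le_refl _)
  rw [← wt_take.2, List.take_length] at h2
  exact h2

theorem ext_iter {m : ℕ} (hm : 0 < m) (k : ℕ) : Ext 2 m (sg^[k] wt) wt := by
  induction k with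
  | zero => exact Ext.refl _
  | succ k ih =>
    have h : ∀ j, Ext 2 m (sg^[j] (sg wt)) (sg^[j] wt) := by
      intro j
      induction j with
      | zero => exact ext_base hm
      | succ j ihj =>
        rw [Function.iterate_succ_apply', Function.iterate_succ_apply']
        exact ihj.sg
    exact (h k).trans ih

theorem sg_len (v : List Bool) : 2 * v.length ≤ (sg v).length := by
  induction v with
  | nil => simp
  | cons c v ih =>
    rw [sg_cons, List.length_append]
    cases c <;> simp [sl] <;> omega

theorem iter_len (k : ℕ) : k ≤ (sg^[k] wt).length := by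
  induction k with
  | zero => omega
  | succ k ih =>
    rw [Function.iterate_succ_apply']
    have := sg_len (sg^[k] wt)
    have h1 : 1 ≤ (sg^[k] wt).length := by
      clear ih this
      induction k with
      | zero =>
        have := congrArg List.length wt_take.1
        rw [List.length_take, wt_take.2] at this
        simp only [Function.iterate_zero, id_eq]
        omega
      | succ k ih =>
        rw [Function.iterate_succ_apply']
        have := sg_len (sg^[k] wt)
        omega
    omega

theorem two_not_regular (m : ℕ) (hm : 2 ≤ m) : ¬ (Lang 2 m wt).IsRegular := by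
  refine not_regular (c := 3) (y0 := []) (by omega) ?_
  intro K
  obtain ⟨z, hz⟩ := ext_iter (m := m) (by omega) K
  refine ⟨sg^[K] wt, z, iter_len K, ?_, by simpa using hz⟩
  refine good_of_SS ?_ hm
  have : sg^[K] wt = sg^[K + 4] [false] := by
    rw [Function.iterate_add_apply]; rfl
  rw [this]
  exact SS_iter _

end Pool.Agent.H344R3.FB
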