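import Pool.Agent.H344R3.FB.Two

/-!
# `n = 2` and `m ≥ 2`: all words with a certain factor
-/

set_option autoImplicit false

namespace Pool.Agent.H344R3.FB

theorem pw_map {α β : Type*} (f : α → β) (x : List α) (k : ℕ) :
    (pw x k).map f = pw (x.map f) k := by
  induction k with
  | zero => simp
  | succ k ih => rw [pw_succ, pw_succ, List.map_append, ih]

theorem lang_map {α β : Type*} (f : α → β) {n m : ℕ} {v w : List α} (h : v ∈ Lang n m w) :
    v.map f ∈ Lang n m (w.map f) := by
  have h' : Relation.ReflTransGen (Step n m) w v := h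
  show Relation.ReflTransGen (Step n m) _ _
  induction h' with
  | refl => exact Relation.ReflTransGen.refl
  | tail _ h2 ih =>
    refine (ih (by assumption)).tail ?_
    obtain ⟨p, x, q, h3, h4⟩ := h2
    exact ⟨p.map f, x.map f, q.map f, by rw [h3]; simp [pw_map], by rw [h4]; simp [pw_map]⟩

theorem Per.of_map {α β : Type*} {f : α → β} (hf : Function.Injective f) {p : ℕ} {F : List α}
    (h : Per p (F.map f)) : Per p F := by
  intro i hi
  have h1 := h i (by simpa using hi)
  rw [List.getElem?_map, List.getElem?_map] at h1
  exact (Option.map_injective hf) h1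

theorem Good.map {α β : Type*} {f : α → β} (hf : Function.Injective f) {c N : ℕ} {V : List α}
    (h : Good c N V) : Good c N (V.map f) := by
  intro a F b he p hp hper
  rw [List.append_assoc] at he
  obtain ⟨a', V', h1, h2, h3⟩ := List.map_eq_append_iff.1 he
  obtain ⟨F', b', h4, h5, h6⟩ := List.map_eq_append_iff.1 h3
  have h7 := h a' F' b' (by rw [h1, h4]; simp) p hp (Per.of_map hf (by rw [h5]; exact hper))
  rw [← h5, List.length_map]
  exact h7

theorem two_not_regular_all {α : Type*} (f : Bool → α) (hf : Function.Injective f) (m : ℕ)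
    (hm : 2 ≤ m) (u v : List α) : ¬ (Lang 2 m (u ++ wt.map f ++ v)).IsRegular := by
  refine not_regular (c := 3) (y0 := u) (by omega) ?_
  intro K
  obtain ⟨z, hz⟩ := ext_iter (m := m) (by omega) K
  refine ⟨(sg^[K] wt).map f, z.map f ++ v, by rw [List.length_map]; exact iter_len K, ?_, ?_⟩
  · refine (good_of_SS ?_ hm).map hf
    have : sg^[K] wt = sg^[K + 4] [false] := by
      rw [Function.iterate_add_apply]; rfl
    rw [this]
    exact SS_iter _
  · have h1 := lang_context u v (lang_map f hz)
    simpa using h1

theorem wt_length : wt.length = 34 := by decide +kernel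

end Pool.Agent.H344R3.FB
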